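import Pool.Agent.P8H3.KI.Stm2
import Pool.Agent.P8H3.KI.Fab

/-!
# Project KI: packages GLUE and EXI
-/

set_option autoImplicit false

namespace Pool.Agent.P8H7.KI

open Pool.Agent.P8H3.KI

/-- descent of a homomorphism -/
lemma desc {G Γ H : Type} [Group G] [Group Γ] [Group H] (π : G →* Γ) (hπ : Function.Surjective π)
    (X : Set G) (hker : π.ker = Subgroup.normalClosure X) (F : G →* H) (hF : ∀ g ∈ X, F g = 1) :
    ∃ Ψ : Γ →* H, ∀ g, Ψ (π g) = F g := by
  have h1 : π.ker ≤ F.ker := by
    rw [hker]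
    apply Subgroup.normalClosure_le_normal
    intro g hg
    exact MonoidHom.mem_ker.2 (hF g hg)
  refine ⟨π.liftOfSurjective hπ ⟨F, h1⟩, fun g => ?_⟩
  exact MonoidHom.liftOfRightInverse_comp_apply _ _ _ ⟨F, h1⟩ g

/-- generators of the free abelian group -/
lemma gen_top {X : Type} [Fintype X] [DecidableEq X] (S : Subgroup (Multiplicative (X → ℤ)))
    (h : ∀ x, Multiplicative.ofAdd (Pi.single x (1 : ℤ) : X → ℤ) ∈ S) : S = ⊤ := by
  rw [Subgroup.eq_top_iff']
  intro a
  have h1 : a = ∏ x, (Multiplicative.ofAdd (Pi.single x (1 : ℤ) : X → ℤ)) ^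
      (Multiplicative.toAdd a x) := by
    have h2 : ∀ x ∈ (Finset.univ : Finset X), (Multiplicative.ofAdd (Pi.single x (1 : ℤ) : X → ℤ)) ^
        (Multiplicative.toAdd a x) =
        Multiplicative.ofAdd (Pi.single x (Multiplicative.toAdd a x) : X → ℤ) := by
      intro x _
      rw [← ofAdd_zsmul]
      congr 1
      rw [← Pi.single_smul]
      simp
    rw [Finset.prod_congr rfl h2, ← ofAdd_sum]
    have h3 : ∑ x, (Pi.single x (Multiplicative.toAdd a x) : X → ℤ) = Multiplicative.toAdd a :=
      Finset.univ_sum_single _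
    rw [h3]
    rfl
  rw [h1]
  exact Subgroup.prod_mem _ fun x _ => Subgroup.zpow_mem _ (h x) _

/-- the image generates -/
lemma gen_all {ι G Γ : Type} {A : ι → Type} [∀ i, Group (A i)] [Group G] [Group Γ]
    (φ : ∀ i, A i →* G) (hφ : (⨆ i, (φ i).range) = ⊤) (π : G →* Γ) (hπ : Function.Surjective π)
    (S : Subgroup Γ) (h : ∀ i a, π (φ i a) ∈ S) : S = ⊤ := by
  rw [Subgroup.eq_top_iff']
  intro γ
  obtain ⟨g, rfl⟩ := hπ γ
  have h1 : (⨆ i, (φ i).range) ≤ S.comap π := by
    apply iSup_le
    rintro i _ ⟨a, rfl⟩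
    exact h i a
  rw [hφ] at h1
  exact h1 (Subgroup.mem_top g)

/-- EXI -/
theorem exi : S_SUMI → S_SURG → S_EXI := by
  classical
  intro hS hG T n
  obtain ⟨C, hC1, hC2, ⟨E⟩⟩ := T.circle
  obtain ⟨L, φ, h1, h2, h3, h4⟩ := hS T (Fin n) (fun _ => C)
  set t : T.grp C := E.symm (Multiplicative.ofAdd 1) with ht
  set x : Fin n → T.grp L := fun i => φ i t with hx
  set r : Fin (n * n) → T.grp L := fun k =>
    (x (finProdFinEquiv.symm k).1 * x (finProdFinEquiv.symm k).2) *
      (x (finProdFinEquiv.symm k).2 * x (finProdFinEquiv.symm k).1)⁻¹ with hr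
  obtain ⟨L', π, hπ, hker, h5, h6⟩ := hG T L (n * n) r
  refine ⟨L', ?_, ?_, ?_⟩
  · -- the homomorphism
    obtain ⟨Ψ₀, hΨ₀⟩ := h4 (Multiplicative (Fin n → ℤ)) (fun i =>
      (AddMonoidHom.toMultiplicative (AddMonoidHom.single (fun _ : Fin n => ℤ) i)).comp
        E.toMonoidHom)
    have hv : ∀ i, Ψ₀ (x i) = Multiplicative.ofAdd (Pi.single i 1) := by
      intro i
      have := congrArg (fun f : T.grp C →* Multiplicative (Fin n → ℤ) => f t) (hΨ₀ i)
      simp only [MonoidHom.comp_apply] at this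
      rw [hx]
      simp only
      rw [this, ht]
      simp
    obtain ⟨Ψ, hΨ⟩ := desc π hπ (Set.range r) hker Ψ₀ (by
      rintro _ ⟨k, rfl⟩
      rw [hr]
      simp only
      rw [map_mul, map_inv, mul_inv_eq_one, map_mul, map_mul]
      exact mul_comm _ _)
    refine fab (fun i => π (x i)) ?_ ?_ Ψ (fun i => by rw [hΨ, hv])
    · intro i j
      have h7 : r (finProdFinEquiv (i, j)) ∈ π.ker := by
        rw [hker]
        exact Subgroup.subset_normalClosure ⟨_, rfl⟩
      rw [hr] at h7
      simp only [Equiv.symm_apply_apply] at h7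
      rw [MonoidHom.mem_ker, map_mul, map_inv, mul_inv_eq_one, map_mul, map_mul] at h7
      exact h7
    · apply gen_all φ h3 π hπ
      intro i a
      have h8 : a = t ^ (Multiplicative.toAdd (E a)) := by
        apply E.injective
        rw [map_zpow, ht, MulEquiv.apply_symm_apply, ← ofAdd_zsmul]
        simp
      rw [h8, map_zpow, map_zpow]
      exact Subgroup.zpow_mem _ (Subgroup.subset_closure (Set.mem_range_self i)) _
  · rw [h5]
    simp only [hC1] at h1
    simp at h1
    push_cast
    linarith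
  · rw [h6, h2]
    simp [hC2]

/-- GLUE -/
theorem glue : S_SUMI → S_SURG → S_GLUE := by
  classical
  intro hS hG T P ι _ _ _ B M hE hcov
  have E : ∀ i, T.grp (M i) ≃* Multiplicative (B i → ℤ) := fun i => (hE i).some
  obtain ⟨L, φ, h1, h2, h3, h4⟩ := hS T ι M
  choose b hb using fun x => hcov x x
  have hb' : ∀ x, x ∈ B (b x) := fun x => (hb x).1
  set g : ∀ i, B i → T.grp L := fun i x =>
    φ i ((E i).symm (Multiplicative.ofAdd (Pi.single x 1))) with hg
  -- the relators
  set Q : Type := {p : (Σ i, B i) // p.1 ≠ b p.2} with hQ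
  let rel : Q → T.grp L := fun p => g p.1.1 p.1.2 * (g (b p.1.2) ⟨p.1.2, hb' p.1.2⟩)⁻¹
  obtain ⟨L', π, hπ, hker, h5, h6⟩ := hG T L (Fintype.card Q)
    (fun k => rel ((Fintype.equivFin Q).symm k))
  have hrange : Set.range (fun k => rel ((Fintype.equivFin Q).symm k)) = Set.range rel :=
    (Fintype.equivFin Q).symm.surjective.range_comp rel
  rw [hrange] at hker
  have hrel : ∀ i (x : B i), π (g i x) = π (g (b x) ⟨x, hb' x⟩) := by
    intro i x
    by_cases hi : i = b x
    · have : ∀ (j : ι) (hj : i = j) (h : (x : P) ∈ B j), g i x = g j ⟨x, h⟩ := by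
        rintro j rfl h
        rfl
      rw [this (b x) hi (hb' x)]
    · have h7 : rel ⟨⟨i, x⟩, hi⟩ ∈ π.ker := by
        rw [hker]
        exact Subgroup.subset_normalClosure ⟨_, rfl⟩
      rw [MonoidHom.mem_ker, map_mul, map_inv, mul_inv_eq_one] at h7
      exact h7
  -- the number of the relators
  have hcard : Fintype.card Q + Fintype.card P = ∑ i, (B i).card := by
    have e1 : Fintype.card (Σ i, B i) = ∑ i, (B i).card := by
      rw [Fintype.card_sigma]
      exact Finset.sum_congr rfl fun i _ => Fintype.card_coe _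
    have e2 : Fintype.card {p : (Σ i, B i) // p.1 = b p.2} = Fintype.card P := by
      apply Fintype.card_congr
      refine ⟨fun p => p.1.2, fun x => ⟨⟨b x, ⟨x, hb' x⟩⟩, rfl⟩, ?_, fun x => rfl⟩
      rintro ⟨⟨i, x⟩, hi⟩
      simp only at hi
      have : ∀ (j : ι) (hj : i = j) (h : (x : P) ∈ B j), (⟨j, ⟨x, h⟩⟩ : Σ i, B i) = ⟨i, x⟩ := by
        rintro j rfl h
        rfl
      exact Subtype.ext (this (b x) hi (hb' x))
    rw [← e1, ← e2, add_comm, ← Fintype.card_sum]
    exact Fintype.card_congr (Equiv.sumCompl (fun p : (Σ i, B i) => p.1 = b p.2))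
  refine ⟨L', ?_, ?_, ?_⟩
  · -- the homomorphism
    let ex : ∀ i, (B i → ℤ) →+ (P → ℤ) := fun i =>
      { toFun := fun f y => if h : y ∈ B i then f ⟨y, h⟩ else 0
        map_zero' := by
          funext y
          simp
        map_add' := by
          intro f f'
          funext y
          by_cases h : y ∈ B i <;> simp [h] }
    obtain ⟨Ψ₀, hΨ₀⟩ := h4 (Multiplicative (P → ℤ)) (fun i =>
      (AddMonoidHom.toMultiplicative (ex i)).comp (E i).toMonoidHom)
    have hv : ∀ i (x : B i), Ψ₀ (g i x) = Multiplicative.ofAdd (Pi.single (x : P) 1) := by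
      intro i x
      have := congrArg (fun f : T.grp (M i) →* Multiplicative (P → ℤ) =>
        f ((E i).symm (Multiplicative.ofAdd (Pi.single x 1)))) (hΨ₀ i)
      simp only [MonoidHom.comp_apply] at this
      rw [hg]
      simp only
      rw [this]
      have e1 : (E i).toMonoidHom ((E i).symm (Multiplicative.ofAdd (Pi.single x 1))) =
          Multiplicative.ofAdd (Pi.single x 1) := (E i).apply_symm_apply _
      rw [e1]
      show Multiplicative.ofAdd (ex i (Pi.single x 1)) = _
      congr 1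
      funext y
      show (if h : y ∈ B i then (Pi.single x (1 : ℤ) : B i → ℤ) ⟨y, h⟩ else 0) = _
      by_cases hy : y = (x : P)
      · subst hy
        rw [dif_pos x.2]
        simp
      · rw [Pi.single_eq_of_ne hy]
        split_ifs with h
        · rw [Pi.single_eq_of_ne]
          intro h8
          exact hy (congrArg Subtype.val h8)
        · rfl
    obtain ⟨Ψ, hΨ⟩ := desc π hπ (Set.range rel) hker Ψ₀ (by
      rintro _ ⟨p, rfl⟩
      show Ψ₀ (g p.1.1 p.1.2 * (g (b p.1.2) ⟨p.1.2, hb' p.1.2⟩)⁻¹) = 1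
      rw [map_mul, map_inv, mul_inv_eq_one, hv, hv])
    refine fab (fun x => π (g (b x) ⟨x, hb' x⟩)) ?_ ?_ Ψ (fun x => by rw [hΨ, hv])
    · intro x y
      obtain ⟨i, hx, hy⟩ := hcov x y
      have e1 := hrel i ⟨x, hx⟩
      have e2 := hrel i ⟨y, hy⟩
      simp only at e1 e2
      rw [← e1, ← e2, ← map_mul π, ← map_mul π]
      congr 1
      have e3 : ∀ x y : B i, g i x * g i y = φ i ((E i).symm
          (Multiplicative.ofAdd (Pi.single x 1) * Multiplicative.ofAdd (Pi.single y 1))) := by
        intro x y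
        rw [map_mul (E i).symm, map_mul (φ i)]
      rw [e3, e3, mul_comm]
    · apply gen_all φ h3 π hπ
      intro i a
      have h8 : ((Subgroup.closure (Set.range fun x => π (g (b x) ⟨x, hb' x⟩))).comap
          ((π.comp (φ i)).comp (E i).symm.toMonoidHom)) = ⊤ := by
        apply gen_top
        intro x
        rw [Subgroup.mem_comap]
        have e4 : ((π.comp (φ i)).comp (E i).symm.toMonoidHom)
            (Multiplicative.ofAdd (Pi.single x 1)) = π (g i x) := rfl
        rw [e4, hrel i x]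
        exact Subgroup.subset_closure ⟨(x : P), rfl⟩
      have h9 : E i a ∈ ((Subgroup.closure (Set.range fun x => π (g (b x) ⟨x, hb' x⟩))).comap
          ((π.comp (φ i)).comp (E i).symm.toMonoidHom)) := by
        rw [h8]
        exact Subgroup.mem_top _
      have h10 : ((π.comp (φ i)).comp (E i).symm.toMonoidHom) (E i a) = π (φ i a) := by
        show π (φ i ((E i).symm (E i a))) = _
        rw [MulEquiv.symm_apply_apply]
      rw [Subgroup.mem_comap, h10] at h9
      exact h9
  · rw [h5, Finset.sum_add_distrib, ← h1, ← Finset.mul_sum]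
    have : ((Fintype.card Q : ℤ)) + Fintype.card P = ∑ i, ((B i).card : ℤ) := by
      exact_mod_cast hcard
    linarith
  · rw [h6, h2]

end Pool.Agent.P8H7.KI
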